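import Mathlib
import Pool.Agent.Lib.MP_5f1228_co.Tree

/-!
# MP_5f1228_co, complete graphs with three colours: attaching vertices to roots
-/

set_option autoImplicit false

namespace Pool.Agent.MP5f1228.K3

open Finset

variable {V : Type}

/-- the vertex set can be partitioned into classes, one for each colour, connected in their
colour -/
def Part (c : Sym2 V → Fin 3) : Prop :=
  ∃ F : V → Fin 3, ∀ i, ((mono ⊤ c i).induce {v | F v = i}).Preconnected

/-- a step inside a class -/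
def St (c : Sym2 V → Fin 3) (F : V → Fin 3) (u v : V) : Prop :=
  F u = F v ∧ (u = v ∨ c s(u, v) = F u)

theorem St.refl (c : Sym2 V → Fin 3) (F : V → Fin 3) (u : V) : St c F u u := ⟨rfl, Or.inl rfl⟩

theorem part_of (c : Sym2 V → Fin 3) (F : V → Fin 3) (ρ : Fin 3 → V)
    (h : ∀ v, ∃ w, St c F v w ∧ St c F w (ρ (F v))) : Part c := by
  refine ⟨F, fun i => ?_⟩
  have hs : ∀ (u v : V) (hu : F u = i) (hv : F v = i), St c F u v →
      ((mono ⊤ c i).induce {v | F v = i}).Reachable ⟨u, hu⟩ ⟨v, hv⟩ := by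
    rintro u v hu hv ⟨-, h⟩
    by_cases huv : u = v
    · subst huv
      exact SimpleGraph.Reachable.refl _
    · rcases h with h | h
      · exact absurd h huv
      · apply SimpleGraph.Adj.reachable
        show (mono ⊤ c i).Adj u v
        exact ⟨huv, by rw [h, hu]⟩
  have hr : ∀ (u : V) (hu : F u = i), ∃ hρ : F (ρ i) = i,
      ((mono ⊤ c i).induce {v | F v = i}).Reachable ⟨u, hu⟩ ⟨ρ i, hρ⟩ := by
    intro u hu
    obtain ⟨w, h1, h2⟩ := h u
    rw [hu] at h2
    have hw : F w = i := by rw [← h1.1, hu]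
    have hρ : F (ρ i) = i := by rw [← h2.1, hw]
    exact ⟨hρ, (hs u w hu hw h1).trans (hs w (ρ i) hw hρ h2)⟩
  rintro ⟨u, hu⟩ ⟨v, hv⟩
  obtain ⟨h1, h2⟩ := hr u hu
  obtain ⟨h3, h4⟩ := hr v hv
  exact h2.trans h4.symm

/-- the roots attach all vertices but the bad ones, and there are as many universal vertices as bad
ones -/
theorem part_inj (c : Sym2 V → Fin 3) (ρ : Fin 3 → V) (hρ : Function.Injective ρ) (j : V → V)
    (hj : ∀ v, (∀ i, v ≠ ρ i) → (∀ i, c s(v, ρ i) ≠ i) →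
      (∀ i, j v ≠ ρ i) ∧ (∀ i, c s(j v, ρ i) = i))
    (hinj : ∀ v v', (∀ i, v ≠ ρ i) → (∀ i, c s(v, ρ i) ≠ i) →
      (∀ i, v' ≠ ρ i) → (∀ i, c s(v', ρ i) ≠ i) → j v = j v' → v = v') : Part c := by
  classical
  let Bad : V → Prop := fun v => (∀ i, v ≠ ρ i) ∧ (∀ i, c s(v, ρ i) ≠ i)
  let F : V → Fin 3 := fun v =>
    if h : ∃ i, v = ρ i then h.choose
    else if Bad v then c s(v, j v)
    else if h : ∃ q, Bad q ∧ j q = v then c s(h.choose, v)
    else if h : ∃ i, c s(v, ρ i) = i then h.choose else 0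
  have F1 : ∀ i, F (ρ i) = i := by
    intro i
    have h : ∃ k, ρ i = ρ k := ⟨i, rfl⟩
    have : F (ρ i) = h.choose := by simp only [F]; rw [dif_pos h]
    rw [this]
    exact (hρ h.choose_spec).symm
  have F2 : ∀ v, Bad v → F v = c s(v, j v) := by
    intro v hv
    have h : ¬ ∃ i, v = ρ i := by rintro ⟨i, hi⟩; exact hv.1 i hi
    simp only [F]
    rw [dif_neg h, if_pos hv]
  have F3 : ∀ q, Bad q → F (j q) = c s(q, j q) := by
    intro q hq
    obtain ⟨h1, h2⟩ := hj q hq.1 hq.2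
    have h : ¬ ∃ i, j q = ρ i := by rintro ⟨i, hi⟩; exact h1 i hi
    have hb : ¬ Bad (j q) := fun hb => hb.2 0 (h2 0)
    have hq' : ∃ q', Bad q' ∧ j q' = j q := ⟨q, hq, rfl⟩
    have e : hq'.choose = q := by
      have hs := hq'.choose_spec
      exact hinj _ _ hs.1.1 hs.1.2 hq.1 hq.2 hs.2
    have : F (j q) = c s(hq'.choose, j q) := by
      simp only [F]
      rw [dif_neg h, if_neg hb, dif_pos hq']
    rw [this, e]
  have F4 : ∀ v, (∀ i, v ≠ ρ i) → ¬ Bad v → c s(v, ρ (F v)) = F v := by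
    intro v hv hb
    have h : ¬ ∃ i, v = ρ i := by rintro ⟨i, hi⟩; exact hv i hi
    by_cases hq : ∃ q, Bad q ∧ j q = v
    · obtain ⟨q, hq1, hq2⟩ := hq
      have := (hj q hq1.1 hq1.2).2
      rw [hq2] at this
      exact this _
    · have he : ∃ i, c s(v, ρ i) = i := by
        by_contra hcon
        exact hb ⟨hv, fun i hi => hcon ⟨i, hi⟩⟩
      have : F v = he.choose := by
        simp only [F]
        rw [dif_neg h, if_neg hb, dif_neg hq, dif_pos he]
      rw [this]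
      exact he.choose_spec
  refine part_of c F ρ fun v => ?_
  by_cases hv : ∃ i, v = ρ i
  · obtain ⟨i, rfl⟩ := hv
    refine ⟨ρ i, St.refl _ _ _, ?_⟩
    rw [F1 i]
    exact St.refl _ _ _
  have hv' : ∀ i, v ≠ ρ i := fun i hi => hv ⟨i, hi⟩
  by_cases hb : Bad v
  · refine ⟨j v, ⟨?_, Or.inr ?_⟩, ⟨?_, Or.inr ?_⟩⟩
    · rw [F2 v hb, F3 v hb]
    · rw [F2 v hb]
    · rw [F1, F2 v hb, F3 v hb]
    · rw [(hj v hb.1 hb.2).2, F2 v hb, F3 v hb]
  · exact ⟨v, St.refl _ _ _, ⟨by rw [F1], Or.inr (F4 v hv' hb)⟩⟩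

/-- the same with the cardinalities -/
theorem part_card [Fintype V] [DecidableEq V] (c : Sym2 V → Fin 3) (ρ : Fin 3 → V)
    (hρ : Function.Injective ρ) (B P : Finset V) (hBP : B.card ≤ P.card)
    (hP : ∀ v ∈ P, (∀ i, v ≠ ρ i) ∧ (∀ i, c s(v, ρ i) = i))
    (hB : ∀ v, (∀ i, v ≠ ρ i) → (∀ i, c s(v, ρ i) ≠ i) → v ∈ B) : Part c := by
  classical
  have hc : Fintype.card B ≤ Fintype.card P := by simpa using hBP
  obtain ⟨f⟩ := Function.Embedding.nonempty_of_card_le hc
  refine part_inj c ρ hρ (fun v => if h : v ∈ B then (f ⟨v, h⟩ : V) else v) ?_ ?_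
  · intro v h1 h2
    have hv := hB v h1 h2
    simp only [dif_pos hv]
    exact hP _ (f ⟨v, hv⟩).2
  · intro v v' h1 h2 h3 h4 he
    have hv := hB v h1 h2
    have hv' := hB v' h3 h4
    simp only [dif_pos hv, dif_pos hv'] at he
    have := f.injective (Subtype.ext he)
    exact congrArg Subtype.val this

end Pool.Agent.MP5f1228.K3
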