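import Mathlib
import Pool.Agent.Lib.MP_5f1228_co_K3.Base

/-!
# MP_5f1228_co, complete graphs with three colours: four cells
-/

set_option autoImplicit false

namespace Pool.Agent.MP5f1228.K3

open Finset

variable {V : Type}

/-- the colours of the three perfect matchings of `K_4` -/
def m : Fin 4 → Fin 4 → Fin 3 := fun x y =>
  if (x = 0 ∧ y = 1) ∨ (x = 1 ∧ y = 0) ∨ (x = 2 ∧ y = 3) ∨ (x = 3 ∧ y = 2) then 0
  else if (x = 0 ∧ y = 2) ∨ (x = 2 ∧ y = 0) ∨ (x = 1 ∧ y = 3) ∨ (x = 3 ∧ y = 1) then 1 else 2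

theorem m_symm : ∀ x y, m x y = m y x := by decide

theorem m_inj : ∀ w x y : Fin 4, w ≠ x → w ≠ y → x ≠ y → m w x ≠ m w y := by decide

theorem m_surj : ∀ (x : Fin 4) (i : Fin 3), ∃ w, w ≠ x ∧ m w x = i := by decide

theorem others : ∀ w x : Fin 4, w ≠ x → ∃ y z : Fin 4, y ≠ w ∧ y ≠ x ∧ z ≠ w ∧ z ≠ x ∧ y ≠ z ∧
    ∀ u : Fin 4, u = w ∨ u = y ∨ u = z ∨ u = x := by decide

/-- the cell `w` is split between the colours of the other cells -/
theorem split (c : Sym2 V → Fin 3) (f : V → Fin 4) (hf : Function.Surjective f)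
    (hc : ∀ u v, f u ≠ f v → c s(u, v) = m (f u) (f v)) (w x : Fin 4) (hwx : w ≠ x)
    (a a' t : V) (ha : f a = w) (ha' : f a' = w) (haa : a ≠ a')
    (ht : (f t = w ∧ t ≠ a ∧ t ≠ a') ∨ (f t = x ∧ ∀ v, f v = x → v = t ∨ c s(v, t) = m w x)) :
    Part c := by
  classical
  obtain ⟨y, z, hyw, hyx, hzw, hzx, hyz, hall⟩ := others w x hwx
  have hta : t ≠ a := by
    rcases ht with h | h
    · exact h.2.1
    · rintro rfl
      exact hwx (ha.symm.trans h.1)
  have hta' : t ≠ a' := by
    rcases ht with h | h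
    · exact h.2.2
    · rintro rfl
      exact hwx (ha'.symm.trans h.1)
  have n1 : m w y ≠ m w z := m_inj w y z hyw.symm hzw.symm hyz
  have n2 : m w y ≠ m w x := m_inj w y x hyw.symm hwx hyx
  have n3 : m w z ≠ m w x := m_inj w z x hzw.symm hwx hzx
  let F : V → Fin 3 := fun v => if v = a then m w y else if v = a' then m w z
    else if v = t then m w x else if f v = w then m w y else m w (f v)
  let ρ : Fin 3 → V := fun i => if i = m w y then a else if i = m w z then a' else t
  have Fa : F a = m w y := if_pos rfl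
  have Fa' : F a' = m w z := by simp [F, haa.symm]
  have Ft : F t = m w x := by simp [F, hta, hta']
  have ρ1 : ρ (m w y) = a := if_pos rfl
  have ρ2 : ρ (m w z) = a' := by simp [ρ, n1.symm]
  have ρ3 : ρ (m w x) = t := by simp [ρ, n2.symm, n3.symm]
  obtain ⟨b, hb⟩ := hf y
  have hba : b ≠ a := by
    rintro rfl
    exact hyw (hb.symm.trans ha)
  have hba' : b ≠ a' := by
    rintro rfl
    exact hyw (hb.symm.trans ha')
  have hbt : b ≠ t := by
    rintro rfl
    rcases ht with h | h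
    · exact hyw (hb.symm.trans h.1)
    · exact hyx (hb.symm.trans h.1)
  have Fb : F b = m w y := by simp [F, hba, hba', hbt, hb, hyw]
  refine part_of c F ρ fun v => ?_
  by_cases va : v = a
  · subst va
    exact ⟨v, St.refl _ _ _, by rw [Fa, ρ1]; exact St.refl _ _ _⟩
  by_cases va' : v = a'
  · subst va'
    exact ⟨v, St.refl _ _ _, by rw [Fa', ρ2]; exact St.refl _ _ _⟩
  by_cases vt : v = t
  · subst vt
    exact ⟨v, St.refl _ _ _, by rw [Ft, ρ3]; exact St.refl _ _ _⟩
  rcases hall (f v) with h | h | h | h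
  · have Fv : F v = m w y := by simp [F, va, va', vt, h]
    refine ⟨b, ⟨by rw [Fv, Fb], Or.inr ?_⟩, ?_⟩
    · rw [hc v b (by rw [h, hb]; exact hyw.symm), h, hb, Fv]
    · rw [Fv, ρ1]
      refine ⟨by rw [Fb, Fa], Or.inr ?_⟩
      rw [hc b a (by rw [hb, ha]; exact hyw), hb, ha, Fb, m_symm]
  · have Fv : F v = m w y := by simp [F, va, va', vt, h, hyw]
    refine ⟨v, St.refl _ _ _, ?_⟩
    rw [Fv, ρ1]
    refine ⟨by rw [Fv, Fa], Or.inr ?_⟩
    rw [hc v a (by rw [h, ha]; exact hyw), h, ha, Fv, m_symm]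
  · have Fv : F v = m w z := by simp [F, va, va', vt, h, hzw]
    refine ⟨v, St.refl _ _ _, ?_⟩
    rw [Fv, ρ2]
    refine ⟨by rw [Fv, Fa'], Or.inr ?_⟩
    rw [hc v a' (by rw [h, ha']; exact hzw), h, ha', Fv, m_symm]
  · have Fv : F v = m w x := by simp [F, va, va', vt, h, hwx.symm]
    refine ⟨v, St.refl _ _ _, ?_⟩
    rw [Fv, ρ3]
    refine ⟨by rw [Fv, Ft], Or.inr ?_⟩
    rw [Fv]
    rcases ht with h' | h'
    · rw [hc v t (by rw [h, h'.1]; exact hwx.symm), h, h'.1, m_symm]
    · rcases h'.2 v h with h2 | h2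
      · exact absurd h2 vt
      · exact h2

theorem four (c : Sym2 V → Fin 3) (f : V → Fin 4) (hf : Function.Surjective f)
    (hc : ∀ u v, f u ≠ f v → c s(u, v) = m (f u) (f v)) : Part c := by
  classical
  by_cases h3 : ∃ a a' t : V, f a' = f a ∧ f t = f a ∧ a ≠ a' ∧ t ≠ a ∧ t ≠ a'
  · obtain ⟨a, a', t, h1, h2, h3, h4, h5⟩ := h3
    obtain ⟨x, hx⟩ : ∃ x : Fin 4, f a ≠ x := by
      have : ∀ w : Fin 4, ∃ x, w ≠ x := by decide
      exact this _
    exact split c f hf hc (f a) x hx a a' t rfl h1 h3 (Or.inl ⟨h2, h4, h5⟩)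
  by_cases h2 : ∃ a a' : V, f a' = f a ∧ a ≠ a'
  · -- some cell has two elements, no cell has three
    obtain ⟨a, a', h1, h2⟩ := h2
    by_cases hs : ∃ t, f t ≠ f a ∧ ∀ v, f v = f t → v = t
    · obtain ⟨t, ht, ht'⟩ := hs
      exact split c f hf hc (f a) (f t) ht.symm a a' t rfl h1 h2
        (Or.inr ⟨rfl, fun v hv => Or.inl (ht' v hv)⟩)
    · -- every cell has two elements
      have two : ∀ w : Fin 4, ∃ u u' : V, f u = w ∧ f u' = w ∧ u ≠ u' := by
        intro w
        by_cases hw : w = f a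
        · exact ⟨a, a', hw.symm, by rw [h1, hw], h2⟩
        · obtain ⟨t, ht⟩ := hf w
          have : ¬ ∀ v, f v = f t → v = t := fun h => hs ⟨t, by rw [ht]; exact hw, h⟩
          push Not at this
          obtain ⟨v, hv, hvt⟩ := this
          exact ⟨t, v, ht, by rw [hv, ht], hvt.symm⟩
      obtain ⟨t, t', ht, ht', htt⟩ := two 0
      obtain ⟨w, hw, hm⟩ := m_surj 0 (c s(t', t))
      obtain ⟨u, u', hu, hu', huu⟩ := two w
      refine split c f hf hc w 0 hw u u' t hu hu' huu (Or.inr ⟨ht, ?_⟩)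
      intro v hv
      by_cases hvt : v = t
      · exact Or.inl hvt
      · right
        have : v = t' := by
          by_contra hvt'
          exact h3 ⟨t, t', v, by rw [ht, ht'], by rw [hv, ht], htt, hvt, hvt'⟩
        rw [this, hm]
  · -- all cells are singletons
    have inj : ∀ u v, f u = f v → u = v := by
      intro u v h
      by_contra hne
      exact h2 ⟨u, v, h.symm, hne⟩
    obtain ⟨a, ha⟩ := hf 0
    obtain ⟨b, hb⟩ := hf 2
    obtain ⟨d, hd⟩ := hf 3
    let G : Fin 4 → Fin 3 := fun x => if x = 0 ∨ x = 1 then 0 else if x = 2 then 1 else 2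
    let ρ : Fin 3 → V := fun i => if i = 0 then a else if i = 1 then b else d
    have all4 : ∀ x : Fin 4, x = 0 ∨ x = 1 ∨ x = 2 ∨ x = 3 := by decide
    refine part_of c (fun v => G (f v)) ρ fun v => ⟨v, St.refl _ _ _, ?_⟩
    rcases all4 (f v) with h | h | h | h
    · have : v = a := inj _ _ (by rw [h, ha])
      subst this
      have e : ρ (G (f v)) = v := by rw [h]; rfl
      show St c _ v (ρ (G (f v)))
      rw [e]
      exact St.refl _ _ _
    · have e : ρ (G (f v)) = a := by rw [h]; rfl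
      show St c _ v (ρ (G (f v)))
      rw [e]
      refine ⟨?_, Or.inr ?_⟩
      · show G (f v) = G (f a)
        rw [h, ha]; rfl
      · show c s(v, a) = G (f v)
        rw [hc v a (by rw [h, ha]; decide), h, ha]; rfl
    · have : v = b := inj _ _ (by rw [h, hb])
      subst this
      have e : ρ (G (f v)) = v := by rw [h]; rfl
      show St c _ v (ρ (G (f v)))
      rw [e]
      exact St.refl _ _ _
    · have : v = d := inj _ _ (by rw [h, hd])
      subst this
      have e : ρ (G (f v)) = v := by rw [h]; rfl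
      show St c _ v (ρ (G (f v)))
      rw [e]
      exact St.refl _ _ _

end Pool.Agent.MP5f1228.K3
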