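import Mathlib
import Pool.Agent.Lib.MP_5f1228_co_K3.Base

/-!
# MP_5f1228_co, complete graphs with three colours: nested components
-/

set_option autoImplicit false

namespace Pool.Agent.MP5f1228.K3

open Finset

variable {V : Type}

/-- joined by a path of colour `i` -/
def R (c : Sym2 V → Fin 3) (i : Fin 3) (u v : V) : Prop := (mono ⊤ c i).Reachable u v

theorem R.rfl' (c : Sym2 V → Fin 3) (i : Fin 3) (u : V) : R c i u u :=
  SimpleGraph.Reachable.refl _

theorem R.tr {c : Sym2 V → Fin 3} {i : Fin 3} {u v w : V} (h1 : R c i u v) (h2 : R c i v w) :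
    R c i u w := SimpleGraph.Reachable.trans h1 h2

theorem R.sy {c : Sym2 V → Fin 3} {i : Fin 3} {u v : V} (h1 : R c i u v) : R c i v u :=
  SimpleGraph.Reachable.symm h1

theorem R.of {c : Sym2 V → Fin 3} {i : Fin 3} {u v : V} (h : c s(u, v) = i) : R c i u v := by
  by_cases huv : u = v
  · subst huv
    exact R.rfl' c i u
  · exact SimpleGraph.Adj.reachable (show (mono ⊤ c i).Adj u v from ⟨huv, h⟩)

theorem fin3 (i j k x : Fin 3) (h1 : i ≠ j) (h2 : i ≠ k) (h3 : j ≠ k) (h4 : x ≠ i) (h5 : x ≠ j) :
    x = k := by
  have := i.2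
  have := j.2
  have := k.2
  have := x.2
  simp only [ne_eq, Fin.ext_iff] at *
  omega

theorem tri [Fintype V] [DecidableEq V] (c : Sym2 V → Fin 3) (i j k : Fin 3) (hij : i ≠ j)
    (hik : i ≠ k) (hjk : j ≠ k) (d : V) (ha : ∀ v, R c j d v → R c i d v)
    (hb : ∃ y, ¬ R c i d y) (hc : ∃ z, ¬ R c k d z) : Part c := by
  classical
  obtain ⟨y, hy⟩ := hb
  obtain ⟨e, he⟩ := hc
  have sw : ∀ u v : V, c s(u, v) = c s(v, u) := fun u v => by rw [Sym2.eq_swap]
  -- outside `X` everything is joined to `d` in colour `k`
  have y1 : ∀ v, ¬ R c i d v → c s(v, d) = k := by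
    intro v hv
    apply fin3 i j k _ hij hik hjk
    · intro h
      exact hv (R.of h).sy
    · intro h
      exact hv (ha v (R.of h).sy)
  have y2 : ∀ v, ¬ R c i d v → R c k d v := fun v hv => (R.of (y1 v hv)).sy
  have d1 : ∀ v, R c j d v → c s(v, y) = k := by
    intro v hv
    apply fin3 i j k _ hij hik hjk
    · intro h
      exact hy ((ha v hv).tr (R.of h))
    · intro h
      exact hy (ha y (hv.tr (R.of h)))
  have d2 : ∀ v, R c j d v → R c k d v := fun v hv => (y2 y hy).tr (R.of (d1 v hv)).sy
  have eX : R c i d e := by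
    by_contra h
    exact he (y2 e h)
  have eD : ¬ R c j d e := fun h => he (d2 e h)
  have E1 : ∀ v, R c k e v → ¬ R c k d v := fun v h h' => he (h'.tr h.sy)
  have E2 : ∀ v, R c k e v → R c i d v := by
    intro v h
    by_contra h'
    exact E1 v h (y2 v h')
  have E3 : ∀ v, R c k e v → ¬ R c j d v := fun v h h' => E1 v h (d2 v h')
  have yk : R c k d y := y2 y hy
  have yD : ¬ R c j d y := fun h => hy (ha y h)
  -- the distinctness of the roots
  have hde : d ≠ e := by
    rintro rfl
    exact he (R.rfl' _ _ _)
  have hdy : d ≠ y := by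
    rintro rfl
    exact hy (R.rfl' _ _ _)
  have hey : e ≠ y := by
    rintro rfl
    exact hy eX
  -- colours of the triangle
  have cde : c s(d, e) = i := by
    refine fin3 j k i _ hjk hij.symm hik.symm ?_ ?_
    · intro h; exact eD (R.of h)
    · intro h; exact he (R.of h)
  have cey : c s(e, y) = j := by
    refine fin3 i k j _ hik hij hjk.symm ?_ ?_
    · intro h; exact hy (eX.tr (R.of h))
    · intro h; exact E1 y (R.of h) yk
  have cdy : c s(d, y) = k := d1 d (R.rfl' _ _ _)
  -- the patterns
  have pat : ∀ v, (c s(v, d) ≠ i → c s(v, e) ≠ j → c s(v, y) ≠ k →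
      c s(v, d) = k ∧ c s(v, e) = i ∧ c s(v, y) = j) ∧
      (c s(v, d) ≠ k → c s(v, e) ≠ i → c s(v, y) ≠ j →
      c s(v, d) = i ∧ c s(v, e) = j ∧ c s(v, y) = k) := by
    intro v
    by_cases vD : R c j d v
    · have v1 : c s(v, y) = k := d1 v vD
      have v2 : c s(v, e) = i := by
        refine fin3 j k i _ hjk hij.symm hik.symm ?_ ?_
        · intro h; exact eD (vD.tr (R.of h))
        · intro h; exact he ((d2 v vD).tr (R.of h))
      exact ⟨fun _ _ h => absurd v1 h, fun _ h _ => absurd v2 h⟩
    by_cases vE : R c k e v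
    · have v1 : c s(v, d) = i := by
        refine fin3 j k i _ hjk hij.symm hik.symm ?_ ?_
        · intro h; exact vD (R.of h).sy
        · intro h; exact E1 v vE (R.of h).sy
      have v2 : c s(v, y) = j := by
        refine fin3 i k j _ hik hij hjk.symm ?_ ?_
        · intro h; exact hy ((E2 v vE).tr (R.of h))
        · intro h; exact E1 v vE (yk.tr (R.of h).sy)
      exact ⟨fun h _ _ => absurd v1 h, fun _ _ h => absurd v2 h⟩
    by_cases vX : R c i d v
    · have v1 : c s(v, d) ≠ j := fun h => vD (R.of h).sy
      have v2 : c s(v, e) ≠ k := fun h => vE (R.of h).sy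
      have v3 : c s(v, y) ≠ i := fun h => hy (vX.tr (R.of h))
      refine ⟨fun h1 h2 h3 => ⟨?_, ?_, ?_⟩, fun h1 h2 h3 => ⟨?_, ?_, ?_⟩⟩
      · exact fin3 i j k _ hij hik hjk h1 v1
      · exact fin3 j k i _ hjk hij.symm hik.symm h2 v2
      · exact fin3 i k j _ hik hij hjk.symm v3 h3
      · exact fin3 j k i _ hjk hij.symm hik.symm v1 h1
      · exact fin3 i k j _ hik hij hjk.symm h2 v2
      · exact fin3 i j k _ hij hik hjk v3 h3
    · have v1 : c s(v, d) = k := y1 v vX
      have v2 : c s(v, e) = j := by
        refine fin3 i k j _ hik hij hjk.symm ?_ ?_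
        · intro h; exact vX (eX.tr (R.of h).sy)
        · intro h; exact vX (E2 v (R.of h).sy)
      exact ⟨fun _ h _ => absurd v2 h, fun h _ _ => absurd v1 h⟩
  -- the two systems of roots
  let ρ : Fin 3 → V := fun x => if x = i then d else if x = j then e else y
  let ρ' : Fin 3 → V := fun x => if x = i then e else if x = j then y else d
  have r1 : ρ i = d := if_pos rfl
  have r2 : ρ j = e := by simp [ρ, hij.symm]
  have r3 : ρ k = y := by simp [ρ, hik.symm, hjk.symm]
  have s1 : ρ' i = e := if_pos rfl
  have s2 : ρ' j = y := by simp [ρ', hij.symm]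
  have s3 : ρ' k = d := by simp [ρ', hik.symm, hjk.symm]
  have all3 : ∀ x : Fin 3, x = i ∨ x = j ∨ x = k := by
    intro x
    by_cases h1 : x = i
    · exact Or.inl h1
    by_cases h2 : x = j
    · exact Or.inr (Or.inl h2)
    · exact Or.inr (Or.inr (fin3 i j k x hij hik hjk h1 h2))
  have inj1 : Function.Injective ρ := by
    intro a b hab
    rcases all3 a with rfl | rfl | rfl <;> rcases all3 b with h | h | h <;>
      first
        | exact h.symm
        | (subst h
           simp only [r1, r2, r3] at hab
           first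
             | exact absurd hab hde
             | exact absurd hab.symm hde
             | exact absurd hab hdy
             | exact absurd hab.symm hdy
             | exact absurd hab hey
             | exact absurd hab.symm hey)
  have inj2 : Function.Injective ρ' := by
    intro a b hab
    rcases all3 a with rfl | rfl | rfl <;> rcases all3 b with h | h | h <;>
      first
        | exact h.symm
        | (subst h
           simp only [s1, s2, s3] at hab
           first
             | exact absurd hab hde
             | exact absurd hab.symm hde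
             | exact absurd hab hdy
             | exact absurd hab.symm hdy
             | exact absurd hab hey
             | exact absurd hab.symm hey)
  let P : Finset V := univ.filter fun v => (v ≠ d ∧ v ≠ e ∧ v ≠ y) ∧
    c s(v, d) = i ∧ c s(v, e) = j ∧ c s(v, y) = k
  let P' : Finset V := univ.filter fun v => (v ≠ d ∧ v ≠ e ∧ v ≠ y) ∧
    c s(v, d) = k ∧ c s(v, e) = i ∧ c s(v, y) = j
  rcases le_total P'.card P.card with hcard | hcard
  · refine part_card c ρ inj1 P' P hcard ?_ ?_
    · intro v hv
      simp only [P, mem_filter, mem_univ, true_and] at hv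
      obtain ⟨⟨h1, h2, h3⟩, h4, h5, h6⟩ := hv
      constructor
      · intro x
        rcases all3 x with rfl | rfl | rfl
        · rw [r1]; exact h1
        · rw [r2]; exact h2
        · rw [r3]; exact h3
      · intro x
        rcases all3 x with rfl | rfl | rfl
        · rw [r1]; exact h4
        · rw [r2]; exact h5
        · rw [r3]; exact h6
    · intro v h1 h2
      simp only [P', mem_filter, mem_univ, true_and]
      have a1 := h1 i; have a2 := h1 j; have a3 := h1 k
      have b1 := h2 i; have b2 := h2 j; have b3 := h2 k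
      rw [r1] at a1 b1; rw [r2] at a2 b2; rw [r3] at a3 b3
      exact ⟨⟨a1, a2, a3⟩, (pat v).1 b1 b2 b3⟩
  · refine part_card c ρ' inj2 P P' hcard ?_ ?_
    · intro v hv
      simp only [P', mem_filter, mem_univ, true_and] at hv
      obtain ⟨⟨h1, h2, h3⟩, h4, h5, h6⟩ := hv
      constructor
      · intro x
        rcases all3 x with rfl | rfl | rfl
        · rw [s1]; exact h2
        · rw [s2]; exact h3
        · rw [s3]; exact h1
      · intro x
        rcases all3 x with rfl | rfl | rfl
        · rw [s1]; exact h5
        · rw [s2]; exact h6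
        · rw [s3]; exact h4
    · intro v h1 h2
      simp only [P, mem_filter, mem_univ, true_and]
      have a1 := h1 i; have a2 := h1 j; have a3 := h1 k
      have b1 := h2 i; have b2 := h2 j; have b3 := h2 k
      rw [s1] at a1 b1; rw [s2] at a2 b2; rw [s3] at a3 b3
      exact ⟨⟨a3, a1, a2⟩, (pat v).2 b3 b1 b2⟩

end Pool.Agent.MP5f1228.K3
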