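import Mathlib
import Pool.Agent.Lib.MP_5f1228_co_K3.Tri
import Pool.Agent.Lib.MP_5f1228_co_K3.Four

/-!
# MP_5f1228_co, complete graphs with three colours: the partition theorem
-/

set_option autoImplicit false

namespace Pool.Agent.MP5f1228.K3

open Finset

variable {V : Type}

/-- one colour is connected -/
theorem part_one (c : Sym2 V → Fin 3) (i : Fin 3) (h : ∀ u v, R c i u v) : Part c := by
  refine ⟨fun _ => i, fun k => ?_⟩
  by_cases hk : k = i
  · subst hk
    rintro ⟨u, hu⟩ ⟨v, hv⟩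
    let φ : (mono ⊤ c k) →g ((mono ⊤ c k).induce {v : V | (fun _ => k) v = k}) :=
      { toFun := fun x => ⟨x, rfl⟩
        map_rel' := fun {a b} hab => hab }
    exact (h u v).map φ
  · rintro ⟨u, hu⟩
    exact absurd hu.symm hk

theorem part3 [Fintype V] [DecidableEq V] (c : Sym2 V → Fin 3) : Part c := by
  classical
  by_cases hone : ∃ i, ∀ u v, R c i u v
  · obtain ⟨i, hi⟩ := hone
    exact part_one c i hi
  push Not at hone
  have dis : ∀ i d, ∃ z, ¬ R c i d z := by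
    intro i d
    by_contra h
    push Not at h
    obtain ⟨u, v, huv⟩ := hone i
    exact huv ((h u).sy.tr (h v))
  obtain ⟨p, -, -⟩ := hone 0
  have sw : ∀ u v : V, c s(u, v) = c s(v, u) := fun u v => by rw [Sym2.eq_swap]
  -- nested components
  by_cases h1 : ∀ v, R c 1 p v → R c 0 p v
  · exact tri c 0 1 2 (by decide) (by decide) (by decide) p h1 (dis 0 p) (dis 2 p)
  by_cases h2 : ∀ v, R c 0 p v → R c 1 p v
  · exact tri c 1 0 2 (by decide) (by decide) (by decide) p h2 (dis 1 p) (dis 2 p)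
  push Not at h1 h2
  obtain ⟨b, hb0, hb1⟩ := h2
  obtain ⟨q, hq1, hq0⟩ := h1
  have e2 : ∀ u v, (¬ (R c 0 p u ↔ R c 0 p v)) → c s(u, v) ≠ 0 := by
    intro u v h h'
    exact h ⟨fun hu => hu.tr (R.of h'), fun hv => hv.tr (R.of h').sy⟩
  have e1 : ∀ u v, (¬ (R c 1 p u ↔ R c 1 p v)) → c s(u, v) ≠ 1 := by
    intro u v h h'
    exact h ⟨fun hu => hu.tr (R.of h'), fun hv => hv.tr (R.of h').sy⟩
  have k2 : ∀ x : Fin 3, x ≠ 0 → x ≠ 1 → x = 2 := by decide
  have c2 : ∀ u v, (¬ (R c 0 p u ↔ R c 0 p v)) → (¬ (R c 1 p u ↔ R c 1 p v)) →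
      c s(u, v) = 2 := fun u v h h' => k2 _ (e2 u v h) (e1 u v h')
  by_cases h3 : ∀ v, R c 0 p v ∨ R c 1 p v
  · obtain ⟨e, he⟩ := dis 2 b
    have key : ∀ v, ¬ R c 2 b v → R c 0 p v := by
      intro v hv
      by_contra h0
      have hv1 : R c 1 p v := (h3 v).resolve_left h0
      exact hv (R.of (c2 b v (by tauto) (by tauto)))
    have heX := key e he
    refine tri c 0 2 1 (by decide) (by decide) (by decide) e ?_ (dis 0 e) (dis 1 e)
    intro v hv
    have : ¬ R c 2 b v := fun h => he (h.tr hv.sy)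
    exact heX.sy.tr (key v this)
  -- four cells
  push Not at h3
  obtain ⟨d, hd0, hd1⟩ := h3
  have p0 : R c 0 p p := R.rfl' _ _ _
  have p1 : R c 1 p p := R.rfl' _ _ _
  -- the third colour
  have t1 : ∀ v, (R c 0 p v ↔ R c 1 p v) → R c 2 p v := by
    intro v hv
    by_cases h : R c 0 p v
    · have h' : R c 1 p v := hv.1 h
      have a1 : R c 2 p d := R.of (c2 p d (by tauto) (by tauto))
      have a2 : R c 2 v d := R.of (c2 v d (by tauto) (by tauto))
      exact a1.tr a2.sy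
    · have h' : ¬ R c 1 p v := fun h' => h (hv.2 h')
      exact R.of (c2 p v (by tauto) (by tauto))
  have t2 : ∀ v, ¬ (R c 0 p v ↔ R c 1 p v) → R c 2 b v := by
    intro v hv
    by_cases h : R c 0 p v
    · have h' : ¬ R c 1 p v := fun h' => hv ⟨fun _ => h', fun _ => h⟩
      have a1 : R c 2 b q := R.of (c2 b q (by tauto) (by tauto))
      have a2 : R c 2 v q := R.of (c2 v q (by tauto) (by tauto))
      exact a1.tr a2.sy
    · have h' : R c 1 p v := by
        by_contra h'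
        exact hv ⟨fun x => absurd x h, fun x => absurd x h'⟩
      exact R.of (c2 b v (by tauto) (by tauto))
  have t3 : ¬ R c 2 p b := by
    intro h
    obtain ⟨z, hz⟩ := dis 2 p
    by_cases hz' : (R c 0 p z ↔ R c 1 p z)
    · exact hz (t1 z hz')
    · exact hz (h.tr (t2 z hz'))
  have e3 : ∀ u v, (R c 0 p u ↔ R c 1 p u) → ¬ (R c 0 p v ↔ R c 1 p v) → c s(u, v) ≠ 2 := by
    intro u v hu hv h
    exact t3 (((t1 u hu).tr (R.of h)).tr (t2 v hv).sy)
  let f : V → Fin 4 := fun v => if R c 0 p v then (if R c 1 p v then 0 else 1)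
    else (if R c 1 p v then 2 else 3)
  have f0 : ∀ v, R c 0 p v → R c 1 p v → f v = 0 := fun v h h' => by simp [f, h, h']
  have f1 : ∀ v, R c 0 p v → ¬ R c 1 p v → f v = 1 := fun v h h' => by simp [f, h, h']
  have f2 : ∀ v, ¬ R c 0 p v → R c 1 p v → f v = 2 := fun v h h' => by simp [f, h, h']
  have f3 : ∀ v, ¬ R c 0 p v → ¬ R c 1 p v → f v = 3 := fun v h h' => by simp [f, h, h']
  have g0 : ∀ x : Fin 3, x ≠ 1 → x ≠ 2 → x = 0 := by decide
  have g1 : ∀ x : Fin 3, x ≠ 0 → x ≠ 2 → x = 1 := by decide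
  refine four c f ?_ ?_
  · intro x
    have all4 : ∀ x : Fin 4, x = 0 ∨ x = 1 ∨ x = 2 ∨ x = 3 := by decide
    rcases all4 x with rfl | rfl | rfl | rfl
    · exact ⟨p, f0 p p0 p1⟩
    · exact ⟨b, f1 b hb0 hb1⟩
    · exact ⟨q, f2 q hq0 hq1⟩
    · exact ⟨d, f3 d hd0 hd1⟩
  · intro u v huv
    by_cases u0 : R c 0 p u <;> by_cases u1 : R c 1 p u <;> by_cases v0 : R c 0 p v <;>
      by_cases v1 : R c 1 p v
    · exact absurd ((f0 u u0 u1).trans (f0 v v0 v1).symm) huv
    · rw [f0 u u0 u1, f1 v v0 v1]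
      exact g0 _ (e1 u v (by tauto)) (e3 u v (by tauto) (by tauto))
    · rw [f0 u u0 u1, f2 v v0 v1]
      exact g1 _ (e2 u v (by tauto)) (e3 u v (by tauto) (by tauto))
    · rw [f0 u u0 u1, f3 v v0 v1]
      exact c2 u v (by tauto) (by tauto)
    · rw [f1 u u0 u1, f0 v v0 v1]
      exact g0 _ (e1 u v (by tauto)) (by rw [sw]; exact e3 v u (by tauto) (by tauto))
    · exact absurd ((f1 u u0 u1).trans (f1 v v0 v1).symm) huv
    · rw [f1 u u0 u1, f2 v v0 v1]
      exact c2 u v (by tauto) (by tauto)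
    · rw [f1 u u0 u1, f3 v v0 v1]
      exact g1 _ (e2 u v (by tauto)) (by rw [sw]; exact e3 v u (by tauto) (by tauto))
    · rw [f2 u u0 u1, f0 v v0 v1]
      exact g1 _ (e2 u v (by tauto)) (by rw [sw]; exact e3 v u (by tauto) (by tauto))
    · rw [f2 u u0 u1, f1 v v0 v1]
      exact c2 u v (by tauto) (by tauto)
    · exact absurd ((f2 u u0 u1).trans (f2 v v0 v1).symm) huv
    · rw [f2 u u0 u1, f3 v v0 v1]
      exact g0 _ (e1 u v (by tauto)) (by rw [sw]; exact e3 v u (by tauto) (by tauto))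
    · rw [f3 u u0 u1, f0 v v0 v1]
      exact c2 u v (by tauto) (by tauto)
    · rw [f3 u u0 u1, f1 v v0 v1]
      exact g1 _ (e2 u v (by tauto)) (e3 u v (by tauto) (by tauto))
    · rw [f3 u u0 u1, f2 v v0 v1]
      exact g0 _ (e1 u v (by tauto)) (e3 u v (by tauto) (by tauto))
    · exact absurd ((f3 u u0 u1).trans (f3 v v0 v1).symm) huv

/-- graphs on at most `15` vertices with minimum degree at least `7 n / 8` are complete, and all
three-coloured complete graphs are partitioned by trees -/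
theorem trees3 [Fintype V] [DecidableEq V] (c : Sym2 V → Fin 3) :
    ∃ H : Fin 3 → (⊤ : SimpleGraph V).Subgraph, (∀ i, H i = ⊥ ∨ (H i).coe.IsTree) ∧
      (∀ i v w, (H i).Adj v w → c s(v, w) = i) ∧ ∀ v, ∃! i, v ∈ (H i).verts := by
  obtain ⟨F, hF⟩ := part3 c
  exact trees_of_partition ⊤ c F hF

end Pool.Agent.MP5f1228.K3
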