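import Mathlib
import Pool.Agent.Lib.MP_5f1228_co_K3.Main

/-!
# MP_5f1228_co, Q2: three colours, complete graphs of every order

Not a hand-in: this follows by a short argument from the theorem of Erdos, Gyarfas and Pyber (1991)
that every complete graph with three colours is partitioned by at most two monochromatic trees.

Every complete graph (on any number of vertices) has property `TP_3`: for every colouring of its
edges with three colours the vertex set is partitioned by at most three monochromatic trees of
pairwise distinct colours. Hence every graph `G` on `n ≤ 15` vertices with minimum degree at least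
`(1 - 2^(-3)) n` has property `TP_3`, because these graphs are complete: this is Q2 for `r = 3` and
all `n ≤ 15`.

Proof. If a colour is connected, one tree is enough. Otherwise look at the components of a vertex
`p` in colours 1 and 2. If one contains the other (or if together they contain everything, for
another vertex and other colours), then there are vertices `d, e, y` with the edges `de`, `ey`,
`dy` of the colours `i, j, k`, and each other vertex `v` is joined to `d` in colour `i` or to `e` in
colour `j` or to `y` in colour `k`, unless `vd, ve, vy` have the colours `k, i, j`; and it is joined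
to `e` in colour `i` or to `y` in colour `j` or to `d` in colour `k`, unless `vd, ve, vy` have the
colours `i, j, k`. Let `P` and `P'` be the sets of the vertices with the second and the first of
these patterns. If `|P'| ≤ |P|`, the trees with the roots `d, e, y` (colours `i, j, k`) take all
vertices which are joined to them, and each vertex of `P'` is hung on its own vertex of `P`, which
may be put into any of the trees; if `|P| ≤ |P'|`, the same is done with the roots `e, y, d`. In the
remaining case the vertex set consists of four cells, and the colour of an edge between two cells is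
given by the three perfect matchings of `K_4`; then one cell is split between two of the other cells,
or between all three.
-/

set_option autoImplicit false

open scoped Classical

namespace Pool.Agent.MP5f1228.K3.ThreeColours

/-- Here `H i` is the tree of colour `i` (the empty subgraph if colour `i` is not used). -/
theorem result :
    (∀ (V : Type) [Fintype V] (c : (⊤ : SimpleGraph V).edgeSet → Fin 3),
      ∃ H : Fin 3 → (⊤ : SimpleGraph V).Subgraph,
        (∀ i, H i = ⊥ ∨ (H i).coe.IsTree) ∧
        (∀ i v w, ∀ h : (H i).Adj v w, c ⟨s(v, w), (H i).adj_sub h⟩ = i) ∧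
        ∀ v, ∃! i, v ∈ (H i).verts) ∧
    ∀ (V : Type) [Fintype V] (G : SimpleGraph V), Fintype.card V ≤ 15 →
      (∀ v, (1 - 1 / 2 ^ 3) * (Fintype.card V : ℝ) ≤ G.degree v) →
      ∀ c : G.edgeSet → Fin 3, ∃ H : Fin 3 → G.Subgraph,
        (∀ i, H i = ⊥ ∨ (H i).coe.IsTree) ∧
        (∀ i v w, ∀ h : (H i).Adj v w, c ⟨s(v, w), (H i).adj_sub h⟩ = i) ∧
        ∀ v, ∃! i, v ∈ (H i).verts := by
  have main : ∀ (V : Type) [Fintype V] (c : (⊤ : SimpleGraph V).edgeSet → Fin 3),
      ∃ H : Fin 3 → (⊤ : SimpleGraph V).Subgraph,
        (∀ i, H i = ⊥ ∨ (H i).coe.IsTree) ∧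
        (∀ i v w, ∀ h : (H i).Adj v w, c ⟨s(v, w), (H i).adj_sub h⟩ = i) ∧
        ∀ v, ∃! i, v ∈ (H i).verts := by
    intro V _ c
    obtain ⟨c', hc'⟩ : ∃ c' : Sym2 V → Fin 3,
        ∀ e (he : e ∈ (⊤ : SimpleGraph V).edgeSet), c' e = c ⟨e, he⟩ :=
      ⟨fun e => if he : e ∈ (⊤ : SimpleGraph V).edgeSet then c ⟨e, he⟩ else 0,
        fun e he => dif_pos he⟩
    obtain ⟨H, h1, h2, h3⟩ := Pool.Agent.MP5f1228.K3.trees3 c'
    refine ⟨H, h1, fun i v w h => ?_, h3⟩
    rw [← hc' s(v, w) ((H i).adj_sub h)]
    exact h2 i v w h
  refine ⟨main, ?_⟩
  intro V _ G hn hd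
  have hG : G = ⊤ := by
    ext v w
    rw [SimpleGraph.top_adj]
    refine ⟨fun h => h.ne, fun hvw => ?_⟩
    have h1 := hd v
    have h2 : (Fintype.card V : ℝ) ≤ 15 := by exact_mod_cast hn
    have h3 : (Fintype.card V : ℝ) < (G.degree v : ℝ) + 2 := by
      norm_num at h1
      linarith
    have h4 : Fintype.card V < G.degree v + 2 := by exact_mod_cast h3
    have h5 : G.neighborFinset v ⊆ Finset.univ.erase v := by
      intro u hu
      rw [SimpleGraph.mem_neighborFinset] at hu
      exact Finset.mem_erase.2 ⟨hu.ne', Finset.mem_univ _⟩
    have h6 : (Finset.univ.erase v).card ≤ (G.neighborFinset v).card := by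
      rw [Finset.card_erase_of_mem (Finset.mem_univ v), Finset.card_univ,
        SimpleGraph.card_neighborFinset_eq_degree]
      omega
    have h7 := Finset.eq_of_subset_of_card_le h5 h6
    have h8 : w ∈ G.neighborFinset v := by
      rw [h7]
      exact Finset.mem_erase.2 ⟨hvw.symm, Finset.mem_univ _⟩
    exact (SimpleGraph.mem_neighborFinset _ _ _).1 h8
  subst hG
  exact main V

end Pool.Agent.MP5f1228.K3.ThreeColours
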